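import Pool.Agent.H50.Book.All

set_option autoImplicit false

namespace Pool.Agent.Results.MP_b5ba9b_co.Draw

open Pool.Agent.H50.Book

/-- The strong Ramsey game on the complete graph with vertex set `ℕ` and target `K_6 \ K_4`
is a draw: neither player has a winning strategy. -/
theorem result : ¬ P1Win G64 ∧ ¬ P2Win G64 :=
  ⟨not_P1Win safe_empty, not_P2Win safe_empty⟩

end Pool.Agent.Results.MP_b5ba9b_co.Draw
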